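import Pool.Agent.KS6_8.PL.Ex

/-!
# The maximum `p`-length of `p`-solvable subgroups of `GL(n,q)`: exact value, bounded error

Let `c = max(p, 3)`.

* If `p` is neither `2` nor a Fermat prime, then `m_n(q) = ⌈log_p n⌉` for every power `q` of `p` and
  every `n ≥ 1`.
* For every prime `p` and every power `q` of `p` the difference `m_n(q) - log_c n` is bounded:
  `log_c n - 1 < m_n(q) ≤ log_c n + K`, `K = 7 + ⌈log₂ ⌈log₂ c⌉⌉ + log_c log₂ q`.
* `m_n(q) ≥ ⌈log_c n⌉` for all `n ≥ 1` if `q ≠ 2`.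
* So `m_n(q) / log₂ n` tends to `1 / log₂ c`, and not to `1`.

The sharp lower bound comes from the affine monomial groups `F^X ⋊ ((Fˣ)^X ⋊ T)`, `T` an iterated
wreath product of dihedral groups of order `2 c` acting on `X`, `|X| = c^k`, inside
`GL(c^k + 1, F)`.
-/

set_option autoImplicit false

namespace Pool.Agent.Results.MP_d3ab46_al.ExactValue

open Filter Topology

/-- `G` is `p`-solvable: every composition factor `B / A` of `G` (`B` subnormal in `G`, `A` normal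
in `B`, `B / A` simple) has order `p` or order coprime to `p`. -/
def PSolvable (p : ℕ) (G : Type) [Group G] : Prop :=
  ∀ A B : Subgroup G, B.IsSubnormal → A ≤ B → ∀ _ : (A.subgroupOf B).Normal,
    IsSimpleGroup (B ⧸ A.subgroupOf B) → A.relIndex B = p ∨ (A.relIndex B).Coprime p

/-- `1 = S 0 ≤ S 1 ≤ ⋯ ≤ S k = G` is a series of normal subgroups of `G` in which every factor is
a `p`-group or a `p'`-group. -/
structure IsPSeries (p : ℕ) {G : Type} [Group G] (k : ℕ) (S : ℕ → Subgroup G) : Prop where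
  bot : S 0 = ⊥
  top : S k = ⊤
  normal : ∀ i ≤ k, (S i).Normal
  le : ∀ i < k, S i ≤ S (i + 1)
  factor : ∀ i < k, (∃ m, (S i).relIndex (S (i + 1)) = p ^ m) ∨
    ((S i).relIndex (S (i + 1))).Coprime p

/-- the number of factors of the series that are nontrivial `p`-groups -/
noncomputable def numP (p : ℕ) {G : Type} [Group G] (k : ℕ) (S : ℕ → Subgroup G) : ℕ :=
  {i | i < k ∧ ∃ m, 0 < m ∧ (S i).relIndex (S (i + 1)) = p ^ m}.ncard

/-- the `p`-length: the smallest number of nontrivial `p`-factors in such a series -/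
noncomputable def pLength (p : ℕ) (G : Type) [Group G] : ℕ :=
  sInf {l | ∃ (k : ℕ) (S : ℕ → Subgroup G), IsPSeries p k S ∧ numP p k S = l}

/-- `m_n(q)`: the maximum of the `p`-lengths of the `p`-solvable subgroups of `GL(n, F)`, where
`F` is the field with `q` elements -/
noncomputable def mMax (p n : ℕ) (F : Type) [Field F] : ℕ :=
  sSup {l | ∃ H : Subgroup (GL (Fin n) F), PSolvable p H ∧ pLength p H = l}

theorem pLength_eq (p : ℕ) (G : Type) [Group G] :
    pLength p G = Pool.Agent.Results.MP_d3ab46_al.Limit.pLength p G := by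
  unfold pLength Pool.Agent.Results.MP_d3ab46_al.Limit.pLength
  congr 1
  ext l
  constructor
  · rintro ⟨k, S, h1, h2⟩
    exact ⟨k, S, ⟨h1.bot, h1.top, h1.normal, h1.le, h1.factor⟩, h2⟩
  · rintro ⟨k, S, h1, h2⟩
    exact ⟨k, S, ⟨h1.bot, h1.top, h1.normal, h1.le, h1.factor⟩, h2⟩

theorem set_eq (p n : ℕ) (F : Type) [Field F] :
    {l | ∃ H : Subgroup (GL (Fin n) F), PSolvable p H ∧ pLength p H = l} =
    {l | ∃ H : Subgroup (GL (Fin n) F), Pool.Agent.Results.MP_d3ab46_al.Limit.PSolvable p H ∧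
      Pool.Agent.Results.MP_d3ab46_al.Limit.pLength p H = l} := by
  ext l
  constructor
  · rintro ⟨H, h1, h2⟩
    exact ⟨H, h1, by rw [← pLength_eq]; exact h2⟩
  · rintro ⟨H, h1, h2⟩
    exact ⟨H, h1, by rw [pLength_eq]; exact h2⟩

theorem mMax_eq (p n : ℕ) (F : Type) [Field F] :
    mMax p n F = Pool.Agent.Results.MP_d3ab46_al.Limit.mMax p n F := by
  unfold mMax Pool.Agent.Results.MP_d3ab46_al.Limit.mMax
  rw [set_eq]

/-- **Main theorem.** Let `p` be a prime, `F` the field with `q` elements, `q` a power of `p`, and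
`c = max(p, 3)`.
(1) `m_n(q)` is a maximum.
(2) If `p` is not of the form `2 ^ k + 1` (so `p` is neither `2` nor a Fermat prime), then
`m_n(q) = ⌈log_p n⌉` for all `n ≥ 1`.
(3) In all cases `log_c n - 1 < m_n(q) ≤ log_c n + 7 + ⌈log₂ ⌈log₂ c⌉⌉ + log_c log₂ q`.
(4) If `q ≥ 3` then `⌈log_c n⌉ ≤ m_n(q)` for all `n ≥ 1`.
(5) `m_n(q) / log₂ n` tends to `1 / log₂ c < 1`, hence not to `1`. -/
theorem result (p : ℕ) [hp : Fact p.Prime] (F : Type) [Field F] [Finite F]
    [CharP F p] :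
    (∀ n : ℕ, IsGreatest
      {l | ∃ H : Subgroup (GL (Fin n) F), PSolvable p H ∧ pLength p H = l} (mMax p n F)) ∧
    ((∀ k : ℕ, p ≠ 2 ^ k + 1) → ∀ n : ℕ, 1 ≤ n → mMax p n F = Nat.clog p n) ∧
    (∀ n : ℕ, 1 ≤ n → Real.logb (max p 3 : ℕ) n - 1 < mMax p n F ∧
      (mMax p n F : ℝ) ≤ Real.logb (max p 3 : ℕ) n +
        (7 + Nat.clog 2 (Nat.clog 2 (max p 3)) +
          Real.logb (max p 3 : ℕ) (Real.logb 2 (Nat.card F)))) ∧
    (3 ≤ Nat.card F → ∀ n : ℕ, 1 ≤ n → Nat.clog (max p 3) n ≤ mMax p n F) ∧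
    Tendsto (fun n : ℕ => (mMax p n F : ℝ) / Real.logb 2 n) atTop
      (𝓝 (1 / Real.logb 2 (max p 3 : ℕ))) ∧
    1 / Real.logb 2 (max p 3 : ℕ) < (1 : ℝ) ∧
    ¬ Tendsto (fun n : ℕ => (mMax p n F : ℝ) / Real.logb 2 n) atTop (𝓝 1) := by
  obtain ⟨h1, h2, h3, h4⟩ := Pool.Agent.Results.MP_d3ab46_al.Limit.result p F
  simp only [← mMax_eq, ← set_eq] at h1 h2 h4
  refine ⟨h1, fun hF n hn => ?_, fun n hn => ?_, fun hF n hn => ?_, h2, h3, h4⟩
  · rw [mMax_eq]
    exact Pool.Agent.KS6_8.PL.mMax_eq_clog hF F hn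
  · rw [mMax_eq]
    exact Pool.Agent.KS6_8.PL.mMax_log p F n hn
  · rw [mMax_eq, ← Pool.Agent.Results.MP_d3ab46_al.Limit.cc_eq p hp.out]
    exact Pool.Agent.KS6_8.PL.clog_le_mMax p F hF n hn

end Pool.Agent.Results.MP_d3ab46_al.ExactValue
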